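import Mathlib
import Pool.Agent.W222.UABC.PerField
import Pool.Agent.W222.UABC.Tri

/-!
# Elements supported at a given set of primes, uniformly in the field
-/

set_option autoImplicit false

namespace Pool.Agent.Y729.TU

open NumberField IsDedekindDomain Finset Pool.Agent.H691R3 Pool.Agent.W223.AK
open Pool.Agent.W222.UABC

/-- ideals supported at a given set of primes -/
theorem supp_card (n : ℕ) {ε : ℝ} (hε : 0 < ε) : ∃ D : ℝ, 0 < D ∧
    ∀ (K : Type) [Field K] [NumberField K], Module.finrank ℚ K = n →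
      ∀ (T : Finset (Pr K)) (X : ℝ) (Q : Finset (Idl K)),
        (∀ a ∈ Q, a.support ⊆ T ∧ len a ≤ X) →
        (Q.card : ℝ) ≤ D * Real.exp (ε * (X + ∑ v ∈ T, Real.log (Nv v))) := by
  classical
  obtain ⟨F, hF0, hF⟩ := primes_sum n 2 (by norm_num)
  have hlog2 : 0 < Real.log 2 := Real.log_pos (by norm_num)
  set q : ℝ := Real.exp (-(ε * Real.log 2)) with hq
  have hq0 : 0 < q := Real.exp_pos _
  have hq1 : q < 1 := by
    rw [hq, Real.exp_lt_one_iff]
    have := mul_pos hε hlog2
    linarith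
  set Cε : ℝ := (1 - q)⁻¹ with hCε
  have hCε0 : 0 < Cε := inv_pos.2 (by linarith)
  -- the threshold
  obtain ⟨z, hz1, hz⟩ : ∃ z : ℝ, 1 ≤ z ∧ ∀ y : ℝ, z ≤ y →
      Cε * Real.exp (-(ε * Real.log y)) ≤ ε * Real.log 2 := by
    have h1 : Filter.Tendsto (fun y : ℝ => Cε * Real.exp (-(ε * Real.log y))) Filter.atTop
        (nhds (Cε * 0)) := by
      refine Filter.Tendsto.const_mul _ ?_
      refine Real.tendsto_exp_neg_atTop_nhds_zero.comp ?_
      exact Real.tendsto_log_atTop.const_mul_atTop hε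
    rw [mul_zero] at h1
    have h2 := h1.eventually (Iio_mem_nhds (mul_pos hε hlog2))
    obtain ⟨z, hz⟩ := Filter.eventually_atTop.1 h2
    exact ⟨max z 1, le_max_right _ _, fun y hy => (hz y ((le_max_left _ _).trans hy)).le⟩
  refine ⟨Real.exp (Cε * z ^ 2 * F), Real.exp_pos _, ?_⟩
  intro K _ _ hK T X Q hQ
  set f : Pr K × ℕ → ℝ := fun u => if u.1 ∈ T ∧ u.2 ≠ 0 then
    Real.exp (-(ε * (u.2 * Real.log (Nv u.1)))) else 0 with hf
  have hf0 : ∀ u, 0 ≤ f u := by
    intro u
    rw [hf]
    simp only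
    split_ifs
    · exact (Real.exp_pos _).le
    · exact le_rfl
  have hNv : ∀ v : Pr K, Nv v = (nm v : ℝ) := fun v => rfl
  -- one prime
  have hone : ∀ (v : Pr K) (s : Finset ℕ), ∑ k ∈ s, f (v, k) ≤
      if v ∈ T then Cε * Real.exp (-(ε * Real.log (Nv v))) else 0 := by
    intro v s
    split_ifs with hv
    · set r : ℝ := Real.exp (-(ε * Real.log (Nv v))) with hr
      have hr0 : 0 < r := Real.exp_pos _
      have hrq : r ≤ q := by
        rw [hr, hq]
        apply Real.exp_le_exp.2
        have h1 : Real.log 2 ≤ Real.log (Nv v) := Real.log_le_log (by norm_num) (two_le_Nv v)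
        have := mul_le_mul_of_nonneg_left h1 hε.le
        linarith
      have hr1 : r < 1 := lt_of_le_of_lt hrq hq1
      have h1 : ∀ k ∈ s, f (v, k) ≤ if k = 0 then 0 else r ^ k := by
        intro k _
        rw [hf]
        simp only
        by_cases hk : k = 0
        · simp [hk]
        · rw [if_neg hk, if_pos ⟨hv, hk⟩, hr, ← Real.exp_nat_mul]
          apply le_of_eq
          congr 1
          ring
      have hgeo := summable_geometric_of_lt_one hr0.le hr1
      have h2 : Summable (fun k : ℕ => if k = 0 then (0 : ℝ) else r ^ k) := by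
        refine Summable.of_nonneg_of_le (fun k => ?_) (fun k => ?_) hgeo
        · split_ifs
          · exact le_rfl
          · positivity
        · split_ifs
          · positivity
          · exact le_rfl
      have h3 : ∑' k : ℕ, (if k = 0 then (0 : ℝ) else r ^ k) = r * (1 - r)⁻¹ := by
        rw [h2.tsum_eq_zero_add]
        simp only [if_true, Nat.add_eq_zero_iff, one_ne_zero, and_false, if_false, zero_add]
        simp_rw [pow_succ']
        rw [tsum_mul_left, tsum_geometric_of_lt_one hr0.le hr1]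
      calc ∑ k ∈ s, f (v, k) ≤ ∑ k ∈ s, (if k = 0 then (0 : ℝ) else r ^ k) :=
            Finset.sum_le_sum h1
        _ ≤ ∑' k : ℕ, (if k = 0 then (0 : ℝ) else r ^ k) :=
            h2.sum_le_tsum s fun k _ => by
              split_ifs
              · exact le_rfl
              · positivity
        _ = r * (1 - r)⁻¹ := h3
        _ ≤ Cε * r := by
            rw [mul_comm, hCε]
            refine mul_le_mul_of_nonneg_right ?_ hr0.le
            exact inv_anti₀ (by linarith) (by linarith)
    · refine le_of_eq (Finset.sum_eq_zero fun k _ => ?_)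
      rw [hf]
      simp [hv]
  have htwo : ∀ v : Pr K, Cε * Real.exp (-(ε * Real.log (Nv v))) ≤
      ε * Real.log (Nv v) + Cε * z ^ 2 * (nm v : ℝ) ^ (-(2 : ℝ)) := by
    intro v
    have hN1 : 1 < Nv v := Nv_one_lt v
    have hl : 0 < Real.log (Nv v) := Real.log_pos hN1
    have hNp : (0 : ℝ) < (nm v : ℝ) := by rw [← hNv]; linarith
    rcases le_total z (Nv v) with h | h
    · have h1 := hz _ h
      have h2 : Real.log 2 ≤ Real.log (Nv v) := Real.log_le_log (by norm_num) (two_le_Nv v)
      have h3 : 0 ≤ Cε * z ^ 2 * (nm v : ℝ) ^ (-(2 : ℝ)) := by positivity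
      have h4 := mul_le_mul_of_nonneg_left h2 hε.le
      linarith
    · have h1 : Real.exp (-(ε * Real.log (Nv v))) ≤ 1 := by
        rw [Real.exp_le_one_iff]
        have := mul_pos hε hl
        linarith
      have h2 : (1 : ℝ) ≤ z ^ 2 * (nm v : ℝ) ^ (-(2 : ℝ)) := by
        rw [Real.rpow_neg hNp.le, ← div_eq_mul_inv, one_le_div (by positivity), ← hNv]
        have : (Nv v) ^ (2 : ℝ) = (Nv v) ^ 2 := by
          rw [← Real.rpow_natCast]
          norm_num
        rw [this]
        exact pow_le_pow_left₀ (by linarith) h 2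
      have h3 : Cε * Real.exp (-(ε * Real.log (Nv v))) ≤ Cε * 1 :=
        mul_le_mul_of_nonneg_left h1 hCε0.le
      have h4 : Cε * 1 ≤ Cε * (z ^ 2 * (nm v : ℝ) ^ (-(2 : ℝ))) :=
        mul_le_mul_of_nonneg_left h2 hCε0.le
      have h5 := mul_pos hε hl
      linarith
  set F0 : ℝ := ε * ∑ v ∈ T, Real.log (Nv v) + Cε * z ^ 2 * F with hF0'
  have hsum : ∀ s : Finset (Pr K × ℕ), ∑ u ∈ s, f u ≤ F0 := by
    intro s
    calc ∑ u ∈ s, f u ≤ ∑ u ∈ s.image Prod.fst ×ˢ s.image Prod.snd, f u := by
          refine Finset.sum_le_sum_of_subset_of_nonneg ?_ fun u _ _ => hf0 u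
          intro u hu
          exact Finset.mem_product.2 ⟨Finset.mem_image_of_mem _ hu, Finset.mem_image_of_mem _ hu⟩
      _ = ∑ v ∈ s.image Prod.fst, ∑ k ∈ s.image Prod.snd, f (v, k) := Finset.sum_product _ _ _
      _ ≤ ∑ v ∈ s.image Prod.fst, (if v ∈ T then Cε * Real.exp (-(ε * Real.log (Nv v))) else 0) :=
          Finset.sum_le_sum fun v _ => hone v _
      _ = ∑ v ∈ (s.image Prod.fst).filter (fun v => v ∈ T),
            Cε * Real.exp (-(ε * Real.log (Nv v))) := (Finset.sum_filter _ _).symm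
      _ ≤ ∑ v ∈ T, Cε * Real.exp (-(ε * Real.log (Nv v))) := by
          refine Finset.sum_le_sum_of_subset_of_nonneg ?_ fun u _ _ => by positivity
          intro v hv
          exact (Finset.mem_filter.1 hv).2
      _ ≤ ∑ v ∈ T, (ε * Real.log (Nv v) + Cε * z ^ 2 * (nm v : ℝ) ^ (-(2 : ℝ))) :=
          Finset.sum_le_sum fun v _ => htwo v
      _ = ε * ∑ v ∈ T, Real.log (Nv v) + Cε * z ^ 2 * ∑ v ∈ T, (nm v : ℝ) ^ (-(2 : ℝ)) := by
          rw [Finset.sum_add_distrib, ← Finset.mul_sum, ← Finset.mul_sum]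
      _ ≤ F0 := by
          rw [hF0']
          have := mul_le_mul_of_nonneg_left (hF K hK T) (show 0 ≤ Cε * z ^ 2 by positivity)
          linarith
  have hr := rankin_gen f hf0 F0 hsum Q
  have hge : ∀ a ∈ Q, Real.exp (-(ε * X)) ≤ ∏ v ∈ a.support, f (v, a v) := by
    intro a ha
    obtain ⟨h1, h2⟩ := hQ a ha
    have h3 : ∏ v ∈ a.support, f (v, a v) = Real.exp (-(ε * len a)) := by
      rw [show -(ε * len a) = ∑ v ∈ a.support, -(ε * (a v * Real.log (Nv v))) by
        unfold len
        rw [Finset.mul_sum, Finset.sum_neg_distrib], Real.exp_sum]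
      refine Finset.prod_congr rfl fun v hv => ?_
      rw [hf]
      simp only
      rw [if_pos ⟨h1 hv, Finsupp.mem_support_iff.1 hv⟩]
    rw [h3]
    apply Real.exp_le_exp.2
    have := mul_le_mul_of_nonneg_left h2 hε.le
    linarith
  have hcard : (Q.card : ℝ) * Real.exp (-(ε * X)) ≤ Real.exp F0 := by
    refine le_trans ?_ hr
    rw [← nsmul_eq_mul, ← Finset.sum_const]
    exact Finset.sum_le_sum hge
  have hfin : (Q.card : ℝ) = (Q.card : ℝ) * Real.exp (-(ε * X)) * Real.exp (ε * X) := by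
    rw [mul_assoc, ← Real.exp_add]
    simp
  rw [hfin]
  refine (mul_le_mul_of_nonneg_right hcard (Real.exp_pos _).le).trans (le_of_eq ?_)
  rw [← Real.exp_add, ← Real.exp_add, hF0']
  congr 1
  ring

end Pool.Agent.Y729.TU
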