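import Mathlib
import Pool.Agent.Y729.TU.Supp
import Pool.Agent.Y729.FW.Ht
import Pool.Agent.W222.UABC.Norm

/-!
# Elements with given primes and bounded height, uniformly in the field
-/

set_option autoImplicit false

namespace Pool.Agent.Y729.TU

open NumberField IsDedekindDomain Finset Pool.Agent.H691R3 Pool.Agent.W223.AK
open Pool.Agent.W222.UABC
open Pool.Agent.Y729.FW (lh_eq)

theorem ht_neg {K : Type} [Field K] [NumberField K] (x : K) :
    ht (-x) = Height.logHeight₁ x := by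
  rw [ht_SF, lh_eq]
  congr 1
  · refine Finset.sum_congr rfl fun w _ => ?_
    congr 2
    have : w (-x) = w x := w.1.map_neg x
    rw [this]
    rfl
  · unfold SF Pool.Agent.Y729.FW.lp
    refine finsum_congr fun v => ?_
    rw [AbsoluteValue.map_neg]

/-- elements with given primes and bounded height -/
theorem tunit_card (n : ℕ) {ε : ℝ} (hε : 0 < ε) : ∃ D : ℝ, 0 < D ∧
    ∀ (K : Type) [Field K] [NumberField K], Module.finrank ℚ K = n →
      ∀ (T : Finset (Pr K)) (X : ℝ) (E : Finset K), 0 ≤ X →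
        (∀ x ∈ E, x ≠ 0 ∧ x ≠ 1 ∧ (∀ v, v ∉ T → fv v x = 1) ∧ Height.logHeight₁ x ≤ X) →
        (E.card : ℝ) ≤ D * Real.exp (ε * (X + ∑ v ∈ T, Real.log (Nv v))) := by
  classical
  obtain ⟨D1, hD1, h1⟩ := supp_card n (show 0 < ε / 4 by positivity)
  obtain ⟨D2, hD2, h2⟩ := units_card n
  have hl2 : 0 ≤ Real.log 2 := Real.log_nonneg (by norm_num)
  set A : ℝ := (n + 2) * Real.log 2 with hA
  have hA0 : 0 ≤ A := by positivity
  obtain ⟨D3, hD3, h3⟩ := poly_exp n (1 + 2 * A) (ε / 2) (by linarith) (half_pos hε)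
  set L0 : ℝ := Real.exp (ε / 4 * (n * Real.log 2)) with hL0
  refine ⟨D2 * D3 * ((D1 * L0) * (D1 * L0)), by positivity, ?_⟩
  intro K _ _ hK T X E hX hE
  have hPt : ∀ x ∈ E, Pt (-x) := fun x hx => ⟨neg_ne_zero.2 (hE x hx).1, by
    intro h
    apply (hE x hx).2.1
    linear_combination -h⟩
  have hex : ∀ x : K, ∃ P : Fin 3 → Idl K, x ∈ E → IsP ∅ (-x) P := by
    intro x
    by_cases hx : x ∈ E
    · obtain ⟨P, hP⟩ := exists_isP ∅ (hPt x hx)
      exact ⟨P, fun _ => hP⟩
    · exact ⟨fun _ => 0, fun h => absurd h hx⟩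
  choose P hP using hex
  set Y : ℝ := ∑ v ∈ T, Real.log (Nv v) with hY
  have hsupp : ∀ x ∈ E, (P x 0).support ⊆ T ∧ (P x 1).support ⊆ T := by
    intro x hx
    have key : ∀ l : Fin 3, (∀ v, v ∉ T → fv v (L l (-x)) = 1) → (P x l).support ⊆ T := by
      intro l hl v hv
      by_contra hvT
      have h4 := (hP x hx).val l v (Finset.notMem_empty v)
      have h5 : fv v (-x) = 1 := by
        rw [AbsoluteValue.map_neg]
        exact (hE x hx).2.2.1 v hvT
      rw [hl v hvT, h5, max_self, one_mul, zpow_neg, zpow_natCast] at h4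
      have h6 : (1 : ℝ) < (Nv v) ^ (P x l v) :=
        one_lt_pow₀ (Nv_one_lt v) (Finsupp.mem_support_iff.1 hv)
      have h7 := inv_lt_one_of_one_lt₀ h6
      rw [← h4] at h7
      exact lt_irrefl _ h7
    refine ⟨key 0 fun v hv => ?_, key 1 fun v hv => ?_⟩
    · rw [L_zero, AbsoluteValue.map_neg]
      exact (hE x hx).2.2.1 v hv
    · rw [L_one, map_one]
  have hht : ∀ x ∈ E, ht (-x) ≤ X := fun x hx => by
    rw [ht_neg]
    exact (hE x hx).2.2.2
  have hlen : ∀ x ∈ E, ∀ l, len (P x l) ≤ X + n * Real.log 2 := by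
    intro x hx l
    have h4 := len_le (hPt x hx) (hP x hx) l
    rw [cS_empty, hK] at h4
    have := hht x hx
    linarith
  set π : K → Idl K × Idl K := fun x => (P x 0, P x 1) with hπ
  have hQ1 : ((E.image π).card : ℝ) ≤ (D1 * Real.exp (ε / 4 * ((X + n * Real.log 2) + Y))) *
      (D1 * Real.exp (ε / 4 * ((X + n * Real.log 2) + Y))) := by
    have hsub : E.image π ⊆ (E.image fun x => P x 0) ×ˢ (E.image fun x => P x 1) := by
      intro t ht
      obtain ⟨x, hx, rfl⟩ := Finset.mem_image.1 ht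
      exact Finset.mem_product.2 ⟨Finset.mem_image_of_mem _ hx, Finset.mem_image_of_mem _ hx⟩
    have h4 := Finset.card_le_card hsub
    rw [Finset.card_product] at h4
    have h5 : ((E.image fun x => P x 0).card : ℝ) ≤
        D1 * Real.exp (ε / 4 * ((X + n * Real.log 2) + Y)) := by
      refine h1 K hK T _ _ ?_
      intro a ha
      obtain ⟨x, hx, rfl⟩ := Finset.mem_image.1 ha
      exact ⟨(hsupp x hx).1, hlen x hx 0⟩
    have h6 : ((E.image fun x => P x 1).card : ℝ) ≤
        D1 * Real.exp (ε / 4 * ((X + n * Real.log 2) + Y)) := by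
      refine h1 K hK T _ _ ?_
      intro a ha
      obtain ⟨x, hx, rfl⟩ := Finset.mem_image.1 ha
      exact ⟨(hsupp x hx).2, hlen x hx 1⟩
    calc ((E.image π).card : ℝ) ≤
          ((E.image fun x => P x 0).card : ℝ) * ((E.image fun x => P x 1).card : ℝ) := by
          exact_mod_cast h4
      _ ≤ _ := mul_le_mul h5 h6 (Nat.cast_nonneg _) (by positivity)
  have hfib : ∀ t ∈ E.image π, ((E.filter fun x => π x = t).card : ℝ) ≤
      D2 * (1 + 2 * A + 2 * X) ^ n := by
    intro t _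
    set G := E.filter fun x => π x = t with hG
    rcases G.eq_empty_or_nonempty with hGe | ⟨x0, hx0⟩
    · rw [hGe, Finset.card_empty, Nat.cast_zero]
      positivity
    have hGm : ∀ x ∈ G, x ∈ E ∧ π x = t := fun x hx => Finset.mem_filter.1 hx
    obtain ⟨hx0F, hx0t⟩ := hGm x0 hx0
    have hq0 := quo_ne (hPt x0 hx0F) 0 1
    set f : K → K := fun x => quo 0 1 (-x) / quo 0 1 (-x0) with hf
    have hinj : Set.InjOn f (G : Set K) := by
      intro x hx y hy hxy
      obtain ⟨hxF, _⟩ := hGm x (Finset.mem_coe.1 hx)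
      obtain ⟨hyF, _⟩ := hGm y (Finset.mem_coe.1 hy)
      exact neg_injective (L_quot_inj (hPt x hxF) (hPt y hyF) (show (0 : Fin 3) ≠ 1 by decide)
        ((div_left_inj' hq0).1 hxy))
    rw [← Finset.card_image_of_injOn hinj]
    have h4 : 1 + 2 * A + 2 * X = 1 + 2 * (X + A) := by ring
    rw [h4]
    refine h2 K hK _ _ (by positivity) ?_
    intro y hy
    obtain ⟨x, hx, rfl⟩ := Finset.mem_image.1 hy
    obtain ⟨hxF, hxt⟩ := hGm x hx
    refine ⟨div_ne_zero (quo_ne (hPt x hxF) 0 1) hq0, ?_, ?_⟩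
    · intro v
      rw [hf]
      simp only
      rw [map_div₀, fv_quo (hP x hxF), fv_quo (hP x0 hx0F)]
      have e1 : P x 0 = P x0 0 := congrArg Prod.fst (hxt.trans hx0t.symm)
      have e2 : P x 1 = P x0 1 := congrArg Prod.snd (hxt.trans hx0t.symm)
      rw [e1, e2]
      have hN : (0 : ℝ) < Nv v := Nv_pos v
      exact div_self (div_ne_zero (zpow_ne_zero _ hN.ne') (zpow_ne_zero _ hN.ne'))
    · intro w
      rw [hf]
      simp only
      have hw1 : 0 < w (quo 0 1 (-x)) := InfinitePlace.pos_iff.2 (quo_ne (hPt x hxF) 0 1)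
      have hw2 : 0 < w (quo 0 1 (-x0)) := InfinitePlace.pos_iff.2 hq0
      rw [map_div₀, Real.log_div hw1.ne' hw2.ne']
      have b1 := log_quo (hPt x hxF) (hht x hxF) 0 1 w
      have b2 := log_quo (hPt x0 hx0F) (hht x0 hx0F) 0 1 w
      rw [hK] at b1 b2
      calc |Real.log (w (quo 0 1 (-x))) - Real.log (w (quo 0 1 (-x0)))|
          ≤ |Real.log (w (quo 0 1 (-x)))| + |Real.log (w (quo 0 1 (-x0)))| := abs_sub _ _
        _ ≤ 2 * (X + A) := by rw [hA]; linarith
  have hcard : (E.card : ℝ) = ∑ t ∈ E.image π, ((E.filter fun x => π x = t).card : ℝ) := by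
    rw [Finset.card_eq_sum_card_image π E]
    push_cast
    rfl
  rw [hcard]
  calc ∑ t ∈ E.image π, ((E.filter fun x => π x = t).card : ℝ)
      ≤ ∑ _t ∈ E.image π, D2 * (1 + 2 * A + 2 * X) ^ n := Finset.sum_le_sum hfib
    _ = ((E.image π).card : ℝ) * (D2 * (1 + 2 * A + 2 * X) ^ n) := by
        rw [Finset.sum_const, nsmul_eq_mul]
    _ ≤ ((D1 * Real.exp (ε / 4 * ((X + n * Real.log 2) + Y))) *
          (D1 * Real.exp (ε / 4 * ((X + n * Real.log 2) + Y)))) *
          (D2 * (D3 * Real.exp (ε / 2 * X))) := by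
        refine mul_le_mul hQ1 (mul_le_mul_of_nonneg_left (h3 X hX) hD2.le) (by positivity)
          (by positivity)
    _ = D2 * D3 * ((D1 * L0) * (D1 * L0)) *
          (Real.exp (ε / 4 * (X + Y)) * Real.exp (ε / 4 * (X + Y)) * Real.exp (ε / 2 * X)) := by
        have e1 : ε / 4 * ((X + n * Real.log 2) + Y) = ε / 4 * (X + Y) +
          ε / 4 * (n * Real.log 2) := by ring
        rw [e1, Real.exp_add, hL0]
        ring
    _ ≤ D2 * D3 * ((D1 * L0) * (D1 * L0)) * Real.exp (ε * (X + Y)) := by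
        refine mul_le_mul_of_nonneg_left ?_ (by positivity)
        rw [← Real.exp_add, ← Real.exp_add]
        apply Real.exp_le_exp.2
        have hY0 : 0 ≤ Y := Finset.sum_nonneg fun v _ => (log_Nv_pos v).le
        have := mul_nonneg hε.le hY0
        nlinarith

end Pool.Agent.Y729.TU
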